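import Pool.Agent.J4H38.GS.Stm4

/-!
# Project GS (helper38, MP_bc6037_nt): piece (L3)

`‖expZeta a w‖ ≤ C ‖w‖` for `Re w ≥ 1/2`, `Im w ≥ 1`.
-/

set_option autoImplicit false

open MeasureTheory Set Filter

namespace Pool.Agent.J4H99.GS

open Pool.Agent.J4H38.GS

/-- the transforms of bounded measurable functions on `(1, ∞)` -/
lemma bdd_transform (A : ℝ → ℂ) (hA : Measurable A) (C : ℝ) (hb : ∀ y, ‖A y‖ ≤ C) :
    DifferentiableOn ℂ (fun s : ℂ => s * ∫ y in Ioi (1 : ℝ), A y * (y : ℂ) ^ (-(s + 1))) {s : ℂ | 0 < s.re} ∧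
    ∀ s : ℂ, 0 < s.re → ‖s * ∫ y in Ioi (1 : ℝ), A y * (y : ℂ) ^ (-(s + 1))‖ ≤ C * (‖s‖ / s.re) := by
  have hC : 0 ≤ C := (norm_nonneg _).trans (hb 0)
  constructor
  · intro s hs
    rw [mem_ofPred_eq] at hs
    set g : ℝ → ℂ := indicator (Ioi 1) A with hg
    have hgm : Measurable g := hA.indicator measurableSet_Ioi
    have hgb : ∀ y, ‖g y‖ ≤ C := by
      intro y
      rw [hg]
      exact (norm_indicator_le_norm_self _ _).trans (hb y)
    have h1 : ∀ s : ℂ, (s * ∫ y in Ioi (1 : ℝ), A y * (y : ℂ) ^ (-(s + 1))) = s * mellin g (-s) := by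
      intro s
      unfold mellin
      congr 1
      have e1 : (fun t : ℝ => (t : ℂ) ^ (-s - 1) • g t) =
          indicator (Ioi 1) (fun y : ℝ => A y * (y : ℂ) ^ (-(s + 1))) := by
        ext t
        rw [hg]
        by_cases ht : t ∈ Ioi (1 : ℝ)
        · rw [indicator_of_mem ht, indicator_of_mem ht, smul_eq_mul, mul_comm]
          congr 2
          ring
        · rw [indicator_of_notMem ht, indicator_of_notMem ht, smul_zero]
      rw [e1, setIntegral_indicator measurableSet_Ioi]
      congr 2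
      ext x
      simp only [mem_inter_iff, mem_Ioi]
      constructor
      · intro h; exact ⟨by linarith, h⟩
      · intro h; exact h.2
    have h2 : DifferentiableAt ℂ (mellin g) (-s) := by
      apply mellin_differentiableAt_of_isBigO_rpow (a := 0) (b := (-s).re - 1)
      · have : LocallyIntegrable g volume := by
          rw [locallyIntegrable_iff]
          intro K hK
          exact Measure.integrableOn_of_bounded (M := C) hK.measure_lt_top.ne
            hgm.aestronglyMeasurable (Eventually.of_forall hgb)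
        exact this.locallyIntegrableOn _
      · simp only [neg_zero, Real.rpow_zero]
        exact Asymptotics.IsBigO.of_bound C (Eventually.of_forall fun y => by
          rw [norm_one, mul_one]; exact hgb y)
      · simp; exact hs
      · apply Asymptotics.IsBigO.of_bound 1
        have : ∀ᶠ x in nhdsWithin (0 : ℝ) (Ioi 0), x < 1 :=
          eventually_nhdsWithin_of_eventually_nhds (eventually_lt_nhds one_pos)
        filter_upwards [this] with x hx
        rw [hg, indicator_of_notMem (by simp; exact hx.le), norm_zero]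
        positivity
      · linarith
    have h3 : DifferentiableAt ℂ (fun s : ℂ => s * mellin g (-s)) s := by
      have h5 : DifferentiableAt ℂ (mellin g ∘ fun s : ℂ => -s) s :=
        DifferentiableAt.comp (g := mellin g) (f := fun s : ℂ => -s) s h2 differentiableAt_id.neg
      exact differentiableAt_id.mul h5
    have h4 : (fun s : ℂ => s * ∫ y in Ioi (1 : ℝ), A y * (y : ℂ) ^ (-(s + 1))) =
        fun s : ℂ => s * mellin g (-s) := funext h1
    rw [h4]
    exact h3.differentiableWithinAt
  · intro s hs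
    rw [norm_mul]
    have h1 : ‖∫ y in Ioi (1 : ℝ), A y * (y : ℂ) ^ (-(s + 1))‖ ≤
        ∫ y in Ioi (1 : ℝ), C * y ^ (-s.re - 1) := by
      apply norm_integral_le_of_norm_le
      · exact (integrableOn_Ioi_rpow_of_lt (by linarith) one_pos).const_mul C
      · filter_upwards [ae_restrict_mem measurableSet_Ioi] with y hy
        rw [mem_Ioi] at hy
        rw [norm_mul, Complex.norm_cpow_eq_rpow_re_of_pos (by linarith)]
        have h2 : (-(s + 1)).re = -s.re - 1 := by simp; ring
        rw [h2]
        exact mul_le_mul_of_nonneg_right (hb y) (Real.rpow_nonneg (by linarith) _)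
    rw [integral_const_mul, integral_Ioi_rpow_of_lt (by linarith) one_pos] at h1
    have h3 : -s.re - 1 + 1 = -s.re := by ring
    rw [h3, Real.one_rpow, neg_div_neg_eq] at h1
    calc ‖s‖ * ‖∫ y in Ioi (1 : ℝ), A y * (y : ℂ) ^ (-(s + 1))‖ ≤ ‖s‖ * (C * (1 / s.re)) :=
          mul_le_mul_of_nonneg_left h1 (norm_nonneg _)
      _ = C * (‖s‖ / s.re) := by ring

/-- the partial sums of the geometric series -/
lemma geom_bound (z : ℂ) (hz : ‖z‖ = 1) (hz1 : z ≠ 1) (n : ℕ) :
    ‖∑ k ∈ Finset.Icc 1 n, z ^ k‖ ≤ 2 / ‖z - 1‖ := by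
  have h1 : ∑ k ∈ Finset.Icc 1 n, z ^ k = z * ((z ^ n - 1) / (z - 1)) := by
    rw [← geom_sum_eq hz1, Finset.mul_sum]
    rw [Finset.range_eq_Ico, ← Finset.Ico_succ_right_eq_Icc, Finset.sum_Ico_eq_sum_range]
    simp only [Nat.succ_eq_succ, Nat.succ_eq_add_one, Nat.add_sub_cancel]
    rw [Finset.range_eq_Ico]
    apply Finset.sum_congr rfl
    intro k _
    ring
  rw [h1, norm_mul, hz, one_mul, norm_div]
  apply div_le_div_of_nonneg_right _ (norm_nonneg _)
  calc ‖z ^ n - 1‖ ≤ ‖z ^ n‖ + ‖(1 : ℂ)‖ := norm_sub_le _ _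
    _ = 2 := by rw [norm_pow, hz, one_pow, norm_one]; norm_num

theorem t_L3 : S_DAN → S_HUR → S_L3 := by
  intro hD hH a
  by_cases ha : (a : UnitAddCircle) = 0
  · refine ⟨3, by norm_num, ?_⟩
    intro w hw hw1
    rw [ha, HurwitzZeta.expZeta_zero]
    obtain ⟨hD1, hD2⟩ := hD 0 le_rfl one_pos
    set U : Set ℂ := {s : ℂ | 0 < s.re} ∩ {s : ℂ | 0 < s.im} with hU
    have hUo : IsOpen U :=
      (isOpen_lt continuous_const Complex.continuous_re).inter (isOpen_lt continuous_const Complex.continuous_im)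
    have hUc : Convex ℝ U := (convex_halfSpace_re_gt 0).inter (convex_halfSpace_im_gt 0)
    have hne : ∀ s ∈ U, s ≠ 1 := by
      rintro s ⟨_, hs2⟩ rfl
      simp at hs2
    have f1 : AnalyticOnNhd ℂ riemannZeta U := by
      apply DifferentiableOn.analyticOnNhd _ hUo
      intro s hs
      exact (differentiableAt_riemannZeta (hne s hs)).differentiableWithinAt
    have f2 : AnalyticOnNhd ℂ (fun s : ℂ => DD 0 s + 1 / (s - 1)) U := by
      apply DifferentiableOn.analyticOnNhd _ hUo
      apply DifferentiableOn.add (hD1.mono inter_subset_left)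
      apply DifferentiableOn.div (differentiableOn_const _) (differentiableOn_id.sub (differentiableOn_const _))
      intro s hs
      exact sub_ne_zero.mpr (hne s hs)
    have hz0 : (2 + Complex.I : ℂ) ∈ U := by
      constructor
      · simp
      · simp
    have hev : riemannZeta =ᶠ[nhds (2 + Complex.I : ℂ)] (fun s : ℂ => DD 0 s + 1 / (s - 1)) := by
      have : {s : ℂ | 1 < s.re} ∈ nhds (2 + Complex.I : ℂ) :=
        (isOpen_lt continuous_const Complex.continuous_re).mem_nhds (by simp)
      filter_upwards [this] with s hs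
      have h1 := hH 0 le_rfl one_pos s hs
      rw [zeta_eq_tsum_one_div_nat_add_one_cpow hs, ← h1.tsum_eq]
      apply tsum_congr
      intro n
      rw [Complex.cpow_neg, one_div]
      congr 2
      push_cast
      ring
    have heq := f1.eqOn_of_preconnected_of_eventuallyEq f2 hUc.isPreconnected hz0 hev
    have hwU : w ∈ U := ⟨by show 0 < w.re; linarith, by show 0 < w.im; linarith⟩
    rw [heq hwU]
    have h1 : ‖DD 0 w‖ ≤ 2 * ‖w‖ := by
      refine (hD2 w (by linarith)).trans ?_
      rw [div_le_iff₀ (by linarith)]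
      nlinarith [norm_nonneg w]
    have h2 : ‖1 / (w - 1)‖ ≤ ‖w‖ := by
      have h3 : 1 ≤ ‖w - 1‖ := by
        have := Complex.abs_im_le_norm (w - 1)
        rw [Complex.sub_im, Complex.one_im, sub_zero] at this
        exact hw1.trans ((le_abs_self _).trans this)
      have h4 : 1 ≤ ‖w‖ := hw1.trans ((le_abs_self _).trans (Complex.abs_im_le_norm w))
      rw [norm_div, norm_one]
      refine le_trans ?_ h4
      rw [div_le_one (by linarith)]
      exact h3
    calc ‖DD 0 w + 1 / (w - 1)‖ ≤ ‖DD 0 w‖ + ‖1 / (w - 1)‖ := norm_add_le _ _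
      _ ≤ 2 * ‖w‖ + ‖w‖ := add_le_add h1 h2
      _ = 3 * ‖w‖ := by ring
  · set z : ℂ := Complex.exp (2 * Real.pi * Complex.I * a) with hz
    have hz1 : z ≠ 1 := by
      intro h
      rw [hz, Complex.exp_eq_one_iff] at h
      obtain ⟨n, hn⟩ := h
      apply ha
      have h2 : (a : ℂ) = n := by
        have h3 : (2 * Real.pi * Complex.I : ℂ) ≠ 0 := Complex.two_pi_I_ne_zero
        apply mul_left_cancel₀ h3
        rw [hn]; ring
      have h4 : a = n := by exact_mod_cast h2
      rw [h4, AddCircle.coe_eq_zero_iff]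
      exact ⟨n, by simp⟩
    have hzn : ‖z‖ = 1 := by
      rw [hz, Complex.norm_exp]
      simp
    set C : ℝ := 2 / ‖z - 1‖ with hCdef
    set f : ℕ → ℂ := fun n => Complex.exp (2 * Real.pi * Complex.I * a * n) with hf
    have hfz : ∀ n : ℕ, f n = z ^ n := by
      intro n
      rw [hf, hz, ← Complex.exp_nat_mul]
      ring_nf
    have hsum : ∀ n : ℕ, ‖∑ k ∈ Finset.Icc 1 n, f k‖ ≤ C := by
      intro n
      rw [Finset.sum_congr rfl (fun k _ => hfz k)]
      exact geom_bound z hzn hz1 n
    have hfn : ∀ n : ℕ, ‖f n‖ = 1 := by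
      intro n
      rw [hfz, norm_pow, hzn, one_pow]
    set A : ℝ → ℂ := fun t => ∑ k ∈ Finset.Icc 1 ⌊t⌋₊, f k with hA
    have hAm : Measurable A :=
      (measurable_from_top (f := fun n : ℕ => ∑ k ∈ Finset.Icc 1 n, f k)).comp Nat.measurable_floor
    obtain ⟨hG1, hG2⟩ := bdd_transform A hAm C (fun y => hsum _)
    have hC : 0 ≤ C := by rw [hCdef]; positivity
    refine ⟨2 * C, by positivity, ?_⟩
    intro w hw hw1
    set U : Set ℂ := {s : ℂ | 0 < s.re} with hU
    have hUo : IsOpen U := isOpen_lt continuous_const Complex.continuous_re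
    have hUc : Convex ℝ U := convex_halfSpace_re_gt 0
    have f1 : AnalyticOnNhd ℂ (HurwitzZeta.expZeta (a : UnitAddCircle)) U :=
      (HurwitzZeta.differentiable_expZeta_of_ne_zero ha).differentiableOn.analyticOnNhd hUo
    have f2 : AnalyticOnNhd ℂ (fun s : ℂ => s * ∫ y in Ioi (1 : ℝ), A y * (y : ℂ) ^ (-(s + 1))) U :=
      hG1.analyticOnNhd hUo
    have hev : HurwitzZeta.expZeta (a : UnitAddCircle) =ᶠ[nhds (2 : ℂ)]
        (fun s : ℂ => s * ∫ y in Ioi (1 : ℝ), A y * (y : ℂ) ^ (-(s + 1))) := by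
      have : {s : ℂ | 1 < s.re} ∈ nhds (2 : ℂ) :=
        (isOpen_lt continuous_const Complex.continuous_re).mem_nhds (by simp)
      filter_upwards [this] with s hs
      have h1 := HurwitzZeta.LSeriesHasSum_exp a hs
      rw [← h1.LSeries_eq]
      apply LSeries_eq_mul_integral f le_rfl (by linarith) h1.LSeriesSummable
      simp only [Real.rpow_zero]
      exact Asymptotics.IsBigO.of_bound C (Eventually.of_forall fun n => by
        rw [norm_one, mul_one]; exact hsum n)
    have heq := f1.eqOn_of_preconnected_of_eventuallyEq f2 hUc.isPreconnected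
      (show (2 : ℂ) ∈ U by simp [hU]) hev
    have hwU : w ∈ U := by show 0 < w.re; linarith
    rw [heq hwU]
    refine (hG2 w (by linarith)).trans ?_
    have h1 : ‖w‖ / w.re ≤ 2 * ‖w‖ := by
      rw [div_le_iff₀ (by linarith)]
      nlinarith [norm_nonneg w]
    calc C * (‖w‖ / w.re) ≤ C * (2 * ‖w‖) := mul_le_mul_of_nonneg_left h1 hC
      _ = 2 * C * ‖w‖ := by ring

end Pool.Agent.J4H99.GS
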